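import Pool.Agent.helper36.PT.Spec

/-!
# Project PT, row ERS: the error terms with a cut
-/

set_option autoImplicit false

namespace Pool.Agent.PT

open Finset Pool.Agent.helper71.AA

lemma ERS_dvd (D : Finset ℕ) (hD : ∀ l ∈ D, l.Prime) (x : ℤ) (h : ∀ l ∈ D, (l : ℤ) ∣ x) :
    ((∏ l ∈ D, l : ℕ) : ℤ) ∣ x := by
  rw [Int.natCast_dvd]
  refine Finset.prod_primes_dvd _ (fun l hl => (hD l hl).prime) fun l hl => ?_
  exact Int.natCast_dvd.1 (h l hl)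

lemma ERS_cop (D : Finset ℕ) (hD : ∀ l ∈ D, l.Prime) (n : ℕ) (h : ∀ l ∈ D, ¬ l ∣ n) :
    (∏ l ∈ D, l).Coprime n :=
  Nat.Coprime.prod_left fun l hl => ((hD l hl).coprime_iff_not_dvd).2 (h l hl)

lemma ERS_primorial (w l : ℕ) (hl : l.Prime) (h : w < l) : ¬ l ∣ primorial w := by
  intro h1
  rw [primorial] at h1
  obtain ⟨x, hx, h2⟩ := (Nat.Prime.prime hl).exists_mem_finset_dvd h1
  obtain ⟨h3, h4⟩ := mem_filter.1 hx
  have h5 : l = x := (Nat.prime_dvd_prime_iff_eq hl h4).1 h2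
  rw [← h5] at h3
  have h6 := mem_range.1 h3
  omega

lemma ERS_pr (D : Finset ℕ) : pr D = ((∏ l ∈ D, l : ℕ) : ℝ) := by
  rw [pr, Nat.cast_prod]

lemma ERS_sqf (D : Finset ℕ) (hD : ∀ l ∈ D, l.Prime) : Squarefree (∏ l ∈ D, l) := by
  refine Finset.squarefree_prod_of_pairwise_isCoprime (fun a ha b hb hab => ?_)
    fun l hl => (hD l hl).squarefree
  exact Nat.coprime_iff_isRelPrime.1 ((Nat.coprime_primes (hD a ha) (hD b hb)).2 hab)

/-- one part -/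
lemma ERS_part (W : ℕ) (hW : 0 < W) (X : ℝ) (hX1 : 1 ≤ X) (p q : ℕ) (hp : p.Prime) (hq : q.Prime)
    (a₀ : ℤ) (Q : Finset ℕ) (ξ ζ : Finset ℕ → ℝ) (B : ℝ) (hB : 0 < B)
    (hQ : ∀ l ∈ Q, l.Prime ∧ ¬ l ∣ W) (hξ : ∀ D, |ξ D| ≤ B) (hζ : ∀ D, |ζ D| ≤ B)
    (hζ2 : ∀ D, ζ D ≠ 0 → pr D ≤ X ^ (0.5531 : ℝ))
    (cut : Finset ℕ → Finset ℕ)
    (hcut : ∀ D, ξ D ≠ 0 → cut D ⊆ D ∧ pr (cut D) ≤ X ^ (0.4451 : ℝ) ∧ pr (D \ cut D) ≤ X ^ (0.108 : ℝ))
    (c : Finset ℕ → Finset ℕ → ℤ) (N : Finset ℕ) (hc : ∀ D ⊆ Q.erase p, ∀ E ⊆ Q.erase q, D ∩ E ⊆ N →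
      (W : ℤ) ∣ c D E - a₀ ∧ (∀ l ∈ D, (l : ℤ) ∣ c D E * p ^ 2 - 1) ∧
        ∀ l ∈ E, (l : ℤ) ∣ c D E * q ^ 2 - 1)
    (hDYA : ∀ (L : ℕ) (γ : ℕ → ℕ → ℝ) (β : ℕ → ℝ) (c : ℕ → ℕ → ℕ → ℤ),
      (∀ d₁ d₂, |γ d₁ d₂| ≤ 1) → (∀ e, |β e| ≤ 1) →
      (∀ d₁ d₂, γ d₁ d₂ ≠ 0 → Squarefree (d₁ * d₂) ∧ (d₁ * d₂).Coprime (p * W) ∧
        (d₁ : ℝ) ≤ X ^ (0.4451 : ℝ) ∧ (d₂ : ℝ) ≤ X ^ (0.108 : ℝ)) →
      (∀ e, β e ≠ 0 → 0 < e ∧ e.Coprime (q * W) ∧ (e : ℝ) ≤ X ^ (0.5531 : ℝ)) →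
      (∀ d₁ d₂ e, γ d₁ d₂ ≠ 0 → 0 < e → e.Coprime (q * W * (d₁ * d₂)) →
        Cg W p q a₀ (d₁ * d₂) e (c d₁ d₂ e)) →
      ‖∑ d₁ ∈ Icc 1 L, ∑ d₂ ∈ Icc 1 L, ∑ e ∈ Icc 1 L,
        (if e.Coprime (d₁ * d₂) then
          (γ d₁ d₂ * β e : ℝ) * Fr (2 * X) (W * (d₁ * d₂) * e) (c d₁ d₂ e) else 0)‖ ≤
        X ^ (0.9993 : ℝ))
    (G : Finset ℕ) (hG : G ⊆ N) :
    ‖∑ D ∈ (Q.erase p).powerset, ∑ E ∈ (Q.erase q).powerset,
      if D ∩ E = G then
        ((ξ D * ζ E : ℝ) : ℂ) * Fr (2 * X) (W * ∏ l ∈ D ∪ E, l) (c D E) else 0‖ ≤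
      B ^ 2 * X ^ (0.9993 : ℝ) := by
  classical
  have hXn : 0 ≤ X ^ (0.9993 : ℝ) := Real.rpow_nonneg (by linarith) _
  by_cases hGq : G ⊆ Q.erase q
  swap
  · have h0 : ∑ D ∈ (Q.erase p).powerset, ∑ E ∈ (Q.erase q).powerset,
        (if D ∩ E = G then
          ((ξ D * ζ E : ℝ) : ℂ) * Fr (2 * X) (W * ∏ l ∈ D ∪ E, l) (c D E) else 0) = 0 := by
      refine sum_eq_zero fun D _ => sum_eq_zero fun E hE => ?_
      rw [if_neg]
      intro h
      apply hGq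
      rw [← h]
      exact inter_subset_right.trans (mem_powerset.1 hE)
    rw [h0, norm_zero]
    positivity
  -- the products
  have hQP : ∀ D : Finset ℕ, D ⊆ Q.erase p → ∀ l ∈ D, l.Prime ∧ ¬ l ∣ W ∧ l ≠ p := fun D hD l hl =>
    ⟨(hQ l (mem_of_mem_erase (hD hl))).1, (hQ l (mem_of_mem_erase (hD hl))).2, ne_of_mem_erase (hD hl)⟩
  have hQE : ∀ D : Finset ℕ, D ⊆ Q.erase q → ∀ l ∈ D, l.Prime ∧ ¬ l ∣ W ∧ l ≠ q := fun D hD l hl =>
    ⟨(hQ l (mem_of_mem_erase (hD hl))).1, (hQ l (mem_of_mem_erase (hD hl))).2, ne_of_mem_erase (hD hl)⟩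
  obtain ⟨L, hL⟩ : ∃ L : ℕ, L = ∏ l ∈ Q, l := ⟨_, rfl⟩
  have hLle : ∀ D : Finset ℕ, D ⊆ Q → ∏ l ∈ D, l ∈ Icc 1 L := by
    intro D hD
    rw [mem_Icc]
    constructor
    · exact Nat.one_le_iff_ne_zero.2 (prod_ne_zero_iff.2 fun l hl => (hQ l (hD hl)).1.ne_zero)
    · rw [hL]
      exact prod_le_prod_of_subset_of_one_le' hD fun l hl _ => (hQ l hl).1.one_lt.le
  obtain ⟨φ, hφ⟩ : ∃ φ : Finset ℕ → ℕ × ℕ, ∀ D, φ D = (∏ l ∈ cut D, l, ∏ l ∈ D \ cut D, l) :=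
    ⟨_, fun _ => rfl⟩
  have hφD : ∀ D, ξ D ≠ 0 → (φ D).1 * (φ D).2 = ∏ l ∈ D, l := by
    intro D hD
    rw [hφ, mul_comm]
    exact prod_sdiff (hcut D hD).1
  have hpf : ∀ D : Finset ℕ, (∀ l ∈ D, l.Prime) → (∏ l ∈ D, l).primeFactors = D := fun D hD =>
    Nat.primeFactors_prod hD
  obtain ⟨DD, hDD⟩ : ∃ DD : Finset (Finset ℕ), DD = (Q.erase p).powerset.filter
    (fun D => ξ D ≠ 0 ∧ G ⊆ D) := ⟨_, rfl⟩
  have hDD' : ∀ D, D ∈ DD ↔ D ⊆ Q.erase p ∧ ξ D ≠ 0 ∧ G ⊆ D := by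
    intro D
    rw [hDD, mem_filter, mem_powerset]
  obtain ⟨EE, hEE⟩ : ∃ EE : Finset (Finset ℕ), EE = (Q.erase q \ G).powerset := ⟨_, rfl⟩
  have hEE' : ∀ E, E ∈ EE ↔ E ⊆ Q.erase q \ G := by
    intro E
    rw [hEE, mem_powerset]
  -- coefficients
  obtain ⟨γ, hγ⟩ : ∃ γ : ℕ → ℕ → ℝ, ∀ d₁ d₂, γ d₁ d₂ =
    if (d₁ * d₂).primeFactors ∈ DD ∧ φ (d₁ * d₂).primeFactors = (d₁, d₂) then
      ξ (d₁ * d₂).primeFactors / B else 0 := ⟨_, fun _ _ => rfl⟩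
  obtain ⟨β, hβ⟩ : ∃ β : ℕ → ℝ, ∀ e, β e = if e.primeFactors ∈ EE ∧ ∏ l ∈ e.primeFactors, l = e then
      ζ (G ∪ e.primeFactors) / B else 0 := ⟨_, fun _ => rfl⟩
  have hγ0 : ∀ d₁ d₂, γ d₁ d₂ ≠ 0 → (d₁ * d₂).primeFactors ∈ DD ∧
      φ (d₁ * d₂).primeFactors = (d₁, d₂) := by
    intro d₁ d₂ h
    by_contra h1
    rw [hγ, if_neg h1] at h
    exact h rfl
  have hγφ : ∀ D ∈ DD, γ (φ D).1 (φ D).2 = ξ D / B := by
    intro D hD
    obtain ⟨h1, h2, h3⟩ := (hDD' D).1 hD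
    have h4 : ((φ D).1 * (φ D).2).primeFactors = D := by
      rw [hφD D h2]
      exact hpf D fun l hl => (hQP D h1 l hl).1
    rw [hγ, h4, if_pos ⟨hD, rfl⟩]
  have hβψ : ∀ E ∈ EE, β (∏ l ∈ E, l) = ζ (G ∪ E) / B := by
    intro E hE
    have h1 := (hEE' E).1 hE
    have h4 : (∏ l ∈ E, l).primeFactors = E :=
      hpf E fun l hl => (hQE E (h1.trans sdiff_subset) l hl).1
    rw [hβ, h4, if_pos ⟨hE, rfl⟩]
  -- the classes
  obtain ⟨c', hc'⟩ : ∃ c' : ℕ → ℕ → ℕ → ℤ, ∀ d₁ d₂ e, (∃ x, Cg W p q a₀ (d₁ * d₂) e x) →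
      Cg W p q a₀ (d₁ * d₂) e (c' d₁ d₂ e) := by
    have h1 : ∀ d₁ d₂ e : ℕ, ∃ y : ℤ, (∃ x, Cg W p q a₀ (d₁ * d₂) e x) →
        Cg W p q a₀ (d₁ * d₂) e y := by
      intro d₁ d₂ e
      by_cases h2 : ∃ x, Cg W p q a₀ (d₁ * d₂) e x
      · obtain ⟨x, hx⟩ := h2
        exact ⟨x, fun _ => hx⟩
      · exact ⟨0, fun h3 => absurd h3 h2⟩
    choose c' hc' using h1
    exact ⟨c', hc'⟩
  have hBd : ∀ x : ℝ, |x| ≤ B → |x / B| ≤ 1 := by
    intro x hx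
    rw [abs_div, abs_of_pos hB, div_le_one hB]
    exact hx
  have hcopD : ∀ D, D ⊆ Q.erase p → (∏ l ∈ D, l).Coprime p ∧ (∏ l ∈ D, l).Coprime W := by
    intro D hD
    refine ⟨ERS_cop D (fun l hl => (hQP D hD l hl).1) p fun l hl h => ?_,
      ERS_cop D (fun l hl => (hQP D hD l hl).1) W fun l hl => (hQP D hD l hl).2.1⟩
    exact (hQP D hD l hl).2.2 ((Nat.prime_dvd_prime_iff_eq (hQP D hD l hl).1 hp).1 h)
  have hcopE : ∀ D, D ⊆ Q.erase q → (∏ l ∈ D, l).Coprime q ∧ (∏ l ∈ D, l).Coprime W := by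
    intro D hD
    refine ⟨ERS_cop D (fun l hl => (hQE D hD l hl).1) q fun l hl h => ?_,
      ERS_cop D (fun l hl => (hQE D hD l hl).1) W fun l hl => (hQE D hD l hl).2.1⟩
    exact (hQE D hD l hl).2.2 ((Nat.prime_dvd_prime_iff_eq (hQE D hD l hl).1 hq).1 h)
  have hmain := hDYA L γ β c' ?_ ?_ ?_ ?_ ?_
  rotate_left
  · intro d₁ d₂
    rw [hγ]
    split_ifs
    · exact hBd _ (hξ _)
    · simp
  · intro e
    rw [hβ]
    split_ifs
    · exact hBd _ (hζ _)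
    · simp
  · intro d₁ d₂ h
    obtain ⟨h1, h2⟩ := hγ0 d₁ d₂ h
    obtain ⟨h3, h4, -⟩ := (hDD' _).1 h1
    obtain ⟨D, hD⟩ : ∃ D, D = (d₁ * d₂).primeFactors := ⟨_, rfl⟩
    rw [← hD] at h1 h2 h3 h4
    have h5 : d₁ * d₂ = ∏ l ∈ D, l := by
      have := hφD D h4
      rwa [h2] at this
    have e1 : ∏ l ∈ cut D, l = d₁ := by
      have := hφ D
      rw [h2] at this
      exact (congrArg Prod.fst this).symm
    have e2 : ∏ l ∈ D \ cut D, l = d₂ := by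
      have := hφ D
      rw [h2] at this
      exact (congrArg Prod.snd this).symm
    refine ⟨?_, ?_, ?_, ?_⟩
    · rw [h5]
      exact ERS_sqf D fun l hl => (hQP D h3 l hl).1
    · rw [h5]
      exact Nat.Coprime.mul_right (hcopD D h3).1 (hcopD D h3).2
    · rw [← e1, ← ERS_pr]
      exact (hcut D h4).2.1
    · rw [← e2, ← ERS_pr]
      exact (hcut D h4).2.2
  · intro e h
    have h1 : e.primeFactors ∈ EE ∧ ∏ l ∈ e.primeFactors, l = e := by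
      by_contra h1
      rw [hβ, if_neg h1] at h
      exact h rfl
    rw [hβ, if_pos h1] at h
    have h2 : ζ (G ∪ e.primeFactors) ≠ 0 := fun h3 => h (by rw [h3, zero_div])
    have h3 := (hEE' _).1 h1.1
    obtain ⟨E, hE⟩ : ∃ E, E = e.primeFactors := ⟨_, rfl⟩
    rw [← hE] at h1 h2 h3
    have h4 := h3.trans (sdiff_subset (s := Q.erase q) (t := G))
    refine ⟨?_, ?_, ?_⟩
    · rw [← h1.2]
      exact prod_pos fun l hl => (hQE E h4 l hl).1.pos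
    · rw [← h1.2]
      exact Nat.Coprime.mul_right (hcopE E h4).1 (hcopE E h4).2
    · refine le_trans ?_ (hζ2 _ h2)
      rw [← h1.2, ERS_pr]
      have h5 : ∏ l ∈ E, l ≤ ∏ l ∈ G ∪ E, l := by
        refine prod_le_prod_of_subset_of_one_le' subset_union_right fun l hl _ => ?_
        rcases mem_union.1 hl with h6 | h6
        · exact (hQE G hGq l h6).1.one_lt.le
        · exact (hQE E h4 l h6).1.one_lt.le
      exact_mod_cast h5
  · intro d₁ d₂ e h he hcop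
    obtain ⟨h1, h2⟩ := hγ0 d₁ d₂ h
    obtain ⟨h3, h4, -⟩ := (hDD' _).1 h1
    obtain ⟨D, hD⟩ : ∃ D, D = (d₁ * d₂).primeFactors := ⟨_, rfl⟩
    rw [← hD] at h1 h2 h3 h4
    have h5 : d₁ * d₂ = ∏ l ∈ D, l := by
      have := hφD D h4
      rwa [h2] at this
    have g1 : e.Coprime (d₁ * d₂) := Nat.Coprime.coprime_mul_left_right hcop
    have g2 : e.Coprime (q * W) := Nat.Coprime.coprime_mul_right_right hcop
    refine hc' d₁ d₂ e (Cg_exists W p q a₀ (d₁ * d₂) e ?_ ?_ g1 ?_ ?_)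
    · rw [h5]; exact (hcopD D h3).2
    · exact Nat.Coprime.coprime_mul_left_right g2
    · rw [h5]; exact (hcopD D h3).1
    · exact Nat.Coprime.coprime_mul_right_right g2
  -- the sum in terms of the sets
  have hsum1 : ∑ d₁ ∈ Icc 1 L, ∑ d₂ ∈ Icc 1 L, ∑ e ∈ Icc 1 L,
        (if e.Coprime (d₁ * d₂) then
          (γ d₁ d₂ * β e : ℝ) * Fr (2 * X) (W * (d₁ * d₂) * e) (c' d₁ d₂ e) else 0) =
      ∑ D ∈ DD, ∑ E ∈ EE, (if (∏ l ∈ E, l).Coprime ((φ D).1 * (φ D).2) then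
          (γ (φ D).1 (φ D).2 * β (∏ l ∈ E, l) : ℝ) *
            Fr (2 * X) (W * ((φ D).1 * (φ D).2) * ∏ l ∈ E, l) (c' (φ D).1 (φ D).2 (∏ l ∈ E, l))
            else 0) := by
    rw [← sum_product' (Icc 1 L) (Icc 1 L) (fun d₁ d₂ => ∑ e ∈ Icc 1 L,
        (if e.Coprime (d₁ * d₂) then
          ((γ d₁ d₂ * β e : ℝ) : ℂ) * Fr (2 * X) (W * (d₁ * d₂) * e) (c' d₁ d₂ e) else 0))]
    symm
    refine sum_of_injOn φ ?_ ?_ ?_ ?_
    · intro D hD D' hD' h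
      obtain ⟨h1, h2, -⟩ := (hDD' D).1 (mem_coe.1 hD)
      obtain ⟨h1', h2', -⟩ := (hDD' D').1 (mem_coe.1 hD')
      rw [← hpf D fun l hl => (hQP D h1 l hl).1, ← hpf D' fun l hl => (hQP D' h1' l hl).1,
        ← hφD D h2, ← hφD D' h2', h]
    · intro D hD
      obtain ⟨h1, h2, -⟩ := (hDD' D).1 (mem_coe.1 hD)
      have h3 : D ⊆ Q := h1.trans (erase_subset _ _)
      rw [mem_coe, mem_product, hφ]
      exact ⟨hLle _ ((hcut D h2).1.trans h3), hLle _ (sdiff_subset.trans h3)⟩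
    · rintro ⟨d₁, d₂⟩ - h
      refine sum_eq_zero fun e _ => ?_
      have h1 : γ d₁ d₂ = 0 := by
        by_contra h2
        obtain ⟨h3, h4⟩ := hγ0 d₁ d₂ h2
        exact h ⟨_, mem_coe.2 h3, h4⟩
      rw [h1]
      simp
    · intro D hD
      refine sum_of_injOn (fun E => ∏ l ∈ E, l) ?_ ?_ ?_ ?_
      · intro E hE E' hE' h
        have h1 := ((hEE' E).1 (mem_coe.1 hE)).trans sdiff_subset
        have h2 := ((hEE' E').1 (mem_coe.1 hE')).trans sdiff_subset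
        have h3 : ∏ l ∈ E, l = ∏ l ∈ E', l := h
        rw [← hpf E fun l hl => (hQE E h1 l hl).1, ← hpf E' fun l hl => (hQE E' h2 l hl).1, h3]
      · intro E hE
        have h1 := ((hEE' E).1 (mem_coe.1 hE)).trans sdiff_subset
        exact mem_coe.2 (hLle E (h1.trans (erase_subset _ _)))
      · intro e _ h
        have h1 : β e = 0 := by
          rw [hβ]
          by_cases h2 : e.primeFactors ∈ EE ∧ ∏ l ∈ e.primeFactors, l = e
          · exact absurd ⟨_, mem_coe.2 h2.1, h2.2⟩ h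
          · rw [if_neg h2]
        rw [h1]
        simp
      · intro E _
        rfl
  have hsum2 : ∑ D ∈ (Q.erase p).powerset, ∑ E ∈ (Q.erase q).powerset,
      (if D ∩ E = G then
        ((ξ D * ζ E : ℝ) : ℂ) * Fr (2 * X) (W * ∏ l ∈ D ∪ E, l) (c D E) else 0) =
      ∑ D ∈ DD, ∑ E ∈ EE, (if D ∩ (G ∪ E) = G then
        ((ξ D * ζ (G ∪ E) : ℝ) : ℂ) * Fr (2 * X) (W * ∏ l ∈ D ∪ (G ∪ E), l) (c D (G ∪ E)) else 0) := by
    symm
    refine sum_of_injOn (fun D => D) (fun _ _ _ _ h => h) ?_ ?_ ?_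
    · intro D hD
      exact mem_coe.2 (mem_powerset.2 ((hDD' D).1 (mem_coe.1 hD)).1)
    · intro D hD h
      refine sum_eq_zero fun E _ => ?_
      split_ifs with h1
      · have h2 : ξ D = 0 := by
          by_contra h3
          refine h ⟨D, mem_coe.2 ((hDD' D).2 ⟨mem_powerset.1 hD, h3, ?_⟩), rfl⟩
          rw [← h1]
          exact inter_subset_left
        rw [h2]
        simp
      · rfl
    · intro D _
      refine sum_of_injOn (fun E => G ∪ E) ?_ ?_ ?_ ?_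
      · intro E hE E' hE' h
        have h1 := (hEE' E).1 (mem_coe.1 hE)
        have h2 := (hEE' E').1 (mem_coe.1 hE')
        have h3 : G ∪ E = G ∪ E' := h
        ext l
        constructor
        · intro hl
          have h4 := mem_union_right G hl
          rw [h3] at h4
          rcases mem_union.1 h4 with h5 | h5
          · exact absurd h5 (mem_sdiff.1 (h1 hl)).2
          · exact h5
        · intro hl
          have h4 := mem_union_right G hl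
          rw [← h3] at h4
          rcases mem_union.1 h4 with h5 | h5
          · exact absurd h5 (mem_sdiff.1 (h2 hl)).2
          · exact h5
      · intro E hE
        have h1 := (hEE' E).1 (mem_coe.1 hE)
        exact mem_coe.2 (mem_powerset.2 (union_subset hGq (h1.trans sdiff_subset)))
      · intro E hE h
        rw [if_neg]
        intro h1
        have h2 : G ⊆ E := by
          rw [← h1]
          exact inter_subset_right
        refine h ⟨E \ G, mem_coe.2 ((hEE' _).2 (sdiff_subset_sdiff (mem_powerset.1 hE) subset_rfl)), ?_⟩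
        exact union_sdiff_of_subset h2
      · intro E _
        rfl
  rw [hsum2]
  rw [hsum1] at hmain
  have hcomp : ∑ D ∈ DD, ∑ E ∈ EE, (if D ∩ (G ∪ E) = G then
        ((ξ D * ζ (G ∪ E) : ℝ) : ℂ) * Fr (2 * X) (W * ∏ l ∈ D ∪ (G ∪ E), l) (c D (G ∪ E)) else 0) =
      ((B ^ 2 : ℝ) : ℂ) * ∑ D ∈ DD, ∑ E ∈ EE, (if (∏ l ∈ E, l).Coprime ((φ D).1 * (φ D).2) then
          (γ (φ D).1 (φ D).2 * β (∏ l ∈ E, l) : ℝ) *
            Fr (2 * X) (W * ((φ D).1 * (φ D).2) * ∏ l ∈ E, l) (c' (φ D).1 (φ D).2 (∏ l ∈ E, l))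
            else 0) := by
    rw [mul_sum]
    refine sum_congr rfl fun D hD => ?_
    rw [mul_sum]
    refine sum_congr rfl fun E hE => ?_
    obtain ⟨h1, h2, h3⟩ := (hDD' D).1 hD
    have h4 := (hEE' E).1 hE
    have h5 := h4.trans (sdiff_subset (s := Q.erase q) (t := G))
    rw [hγφ D hD, hβψ E hE, hφD D h2]
    have hDp : ∀ l ∈ D, l.Prime := fun l hl => (hQP D h1 l hl).1
    have hEp : ∀ l ∈ E, l.Prime := fun l hl => (hQE E h5 l hl).1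
    have hiff : D ∩ (G ∪ E) = G ↔ (∏ l ∈ E, l).Coprime (∏ l ∈ D, l) := by
      constructor
      · intro h
        refine ERS_cop E hEp _ fun l hl h6 => ?_
        obtain ⟨l', hl', h7⟩ := (Nat.Prime.prime (hEp l hl)).exists_mem_finset_dvd h6
        have h8 : l = l' := (Nat.prime_dvd_prime_iff_eq (hEp l hl) (hDp l' hl')).1 h7
        have h9 : l ∈ D ∩ (G ∪ E) := mem_inter.2 ⟨by rw [h8]; exact hl', mem_union_right G hl⟩
        rw [h] at h9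
        exact (mem_sdiff.1 (h4 hl)).2 h9
      · intro h
        ext l
        constructor
        · intro hl
          obtain ⟨h6, h7⟩ := mem_inter.1 hl
          rcases mem_union.1 h7 with h8 | h8
          · exact h8
          · exfalso
            have h9 : l ∣ Nat.gcd (∏ l ∈ E, l) (∏ l ∈ D, l) :=
              Nat.dvd_gcd (dvd_prod_of_mem _ h8) (dvd_prod_of_mem _ h6)
            rw [h] at h9
            exact (hDp l h6).one_lt.ne' (Nat.dvd_one.1 h9)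
        · intro hl
          exact mem_inter.2 ⟨h3 hl, mem_union_left E hl⟩
    by_cases hcop : (∏ l ∈ E, l).Coprime (∏ l ∈ D, l)
    · rw [if_pos hcop, if_pos (hiff.2 hcop)]
      have hFr : Fr (2 * X) (W * ∏ l ∈ D ∪ (G ∪ E), l) (c D (G ∪ E)) =
          Fr (2 * X) (W * (∏ l ∈ D, l) * ∏ l ∈ E, l) (c' (φ D).1 (φ D).2 (∏ l ∈ E, l)) := by
        have hdis : Disjoint D E := by
          rw [Finset.disjoint_left]
          intro l hl hl'
          have h9 : l ∣ Nat.gcd (∏ l ∈ E, l) (∏ l ∈ D, l) :=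
            Nat.dvd_gcd (dvd_prod_of_mem _ hl') (dvd_prod_of_mem _ hl)
          rw [hcop] at h9
          exact (hDp l hl).one_lt.ne' (Nat.dvd_one.1 h9)
        have hun : D ∪ (G ∪ E) = D ∪ E := by
          rw [← union_assoc, union_eq_left.2 h3]
        rw [hun, prod_union hdis, ← mul_assoc]
        have k1 := (hcopD D h1).2
        have k2 := (hcopE E h5).2
        have k4 := (hcopD D h1).1
        have k5 := (hcopE E h5).1
        have hex := Cg_exists W p q a₀ (∏ l ∈ D, l) (∏ l ∈ E, l) k1 k2 hcop k4 k5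
        rw [← hφD D h2] at hex
        have hcg := hc' (φ D).1 (φ D).2 (∏ l ∈ E, l) hex
        rw [hφD D h2] at hcg
        refine Fr_congr _ _ ?_ _ _ (Cg_unique W p q a₀ (∏ l ∈ D, l) (∏ l ∈ E, l) k1 k2 hcop k4 k5
          _ _ ?_ hcg)
        · exact Nat.mul_pos (Nat.mul_pos hW (prod_pos fun l hl => (hDp l hl).pos))
            (prod_pos fun l hl => (hEp l hl).pos)
        · obtain ⟨m1, m2, m3⟩ := hc D h1 (G ∪ E) (union_subset hGq h5) (by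
            rw [hiff.2 hcop]; exact hG)
          refine ⟨m1, ERS_dvd D hDp _ fun l hl => ?_, ERS_dvd E hEp _ fun l hl => ?_⟩
          · have := m2 l hl
            rwa [mul_comm] at this
          · have := m3 l (mem_union_right G hl)
            rwa [mul_comm] at this
      rw [hFr, ← mul_assoc]
      congr 1
      rw [← Complex.ofReal_mul]
      congr 1
      field_simp
    · rw [if_neg hcop, if_neg fun h => hcop (hiff.1 h), mul_zero]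
  rw [hcomp, norm_mul, Complex.norm_real, Real.norm_of_nonneg (by positivity)]
  exact mul_le_mul_of_nonneg_left hmain (by positivity)

/-- Row ERS. -/
theorem ERS (h1 : DYA_stmt) : ERS_stmt := by
  intro w
  obtain ⟨X₀, hX₀⟩ := h1 (primorial w) (primorial_pos w)
  refine ⟨max X₀ 1, fun X hX p q hp hq hpq hwp hwq hpX hqX a₀ Q ξ ζ hQ hξ hζ hcut c hc => ?_⟩
  classical
  have hX1 : 1 ≤ X := (le_max_right _ _).trans hX
  have hX0 : 0 < X := by linarith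
  have hB : 0 < X ^ (0.0001 : ℝ) := Real.rpow_pos_of_pos hX0 _
  choose! cut hcut1 hcut2 hcut3 using hcut
  have hpW : p.Coprime (primorial w) := (hp.coprime_iff_not_dvd).2 (ERS_primorial w p hp hwp)
  have hqW : q.Coprime (primorial w) := (hq.coprime_iff_not_dvd).2 (ERS_primorial w q hq hwq)
  have hpart : ∀ G ∈ (Nn Q p q).powerset,
      ‖∑ D ∈ (Q.erase p).powerset, ∑ E ∈ (Q.erase q).powerset,
        if D ∩ E = G then
          ((ξ D * ζ E : ℝ) : ℂ) * Fr (2 * X) (primorial w * ∏ l ∈ D ∪ E, l) (c D E) else 0‖ ≤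
        (X ^ (0.0001 : ℝ)) ^ 2 * X ^ (0.9993 : ℝ) := fun G hG =>
    ERS_part (primorial w) (primorial_pos w) X hX1 p q hp hq a₀ Q ξ ζ (X ^ (0.0001 : ℝ)) hB
      (fun l hl => ⟨(hQ l hl).1, ERS_primorial w l (hQ l hl).1 (hQ l hl).2⟩) hξ.bd hζ.bd hζ.le cut
      (fun D hD => ⟨hcut1 D hD, hcut2 D hD, hcut3 D hD⟩) c (Nn Q p q)
      (fun D hD E hE hDE => hc D hD E hE hDE)
      (fun L γ β c' => hX₀ X ((le_max_left _ _).trans hX) p q hp hq hpq hpW hqW hpX hqX a₀ L γ β c')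
      G (mem_powerset.1 hG)
  have hEr : Er w X Q p q ξ ζ c = ∑ G ∈ (Nn Q p q).powerset,
      ∑ D ∈ (Q.erase p).powerset, ∑ E ∈ (Q.erase q).powerset,
        if D ∩ E = G then
          ((ξ D * ζ E : ℝ) : ℂ) * Fr (2 * X) (primorial w * ∏ l ∈ D ∪ E, l) (c D E) else 0 := by
    rw [Er]
    symm
    rw [sum_comm]
    refine sum_congr rfl fun D _ => ?_
    rw [sum_comm]
    refine sum_congr rfl fun E _ => ?_
    rw [sum_ite_eq]
    by_cases h : D ∩ E ⊆ Nn Q p q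
    · rw [if_pos h, if_pos (mem_powerset.2 h)]
    · rw [if_neg h, if_neg fun h' => h (mem_powerset.1 h')]
  have hcard : (((Nn Q p q).powerset.card : ℕ) : ℝ) ≤ X ^ (0.0002 : ℝ) := by
    rw [card_powerset]
    have hNp : ∀ l ∈ Nn Q p q, l.Prime ∧ (l : ℤ) ∣ (p : ℤ) ^ 2 - (q : ℤ) ^ 2 := fun l hl =>
      ⟨(hQ l (mem_filter.1 hl).1).1, (mem_filter.1 hl).2⟩
    have h2 : 2 ^ (Nn Q p q).card ≤ ∏ l ∈ Nn Q p q, l := by
      rw [← prod_const]
      exact prod_le_prod' fun l hl => (hNp l hl).1.two_le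
    have h3 : ((∏ l ∈ Nn Q p q, l : ℕ) : ℤ) ∣ (p : ℤ) ^ 2 - (q : ℤ) ^ 2 :=
      ERS_dvd _ (fun l hl => (hNp l hl).1) _ fun l hl => (hNp l hl).2
    have h4 : (p : ℤ) ^ 2 - (q : ℤ) ^ 2 ≠ 0 := by
      intro h5
      have h6 : (p : ℤ) ^ 2 = (q : ℤ) ^ 2 := by linarith
      have h7 : p ^ 2 = q ^ 2 := by exact_mod_cast h6
      exact hpq (Nat.pow_left_injective (by norm_num) h7)
    have h5 : ((∏ l ∈ Nn Q p q, l : ℕ) : ℤ) ≤ |(p : ℤ) ^ 2 - (q : ℤ) ^ 2| :=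
      Int.le_of_dvd (abs_pos.2 h4) ((dvd_abs _ _).2 h3)
    have h6 : (((∏ l ∈ Nn Q p q, l : ℕ) : ℤ) : ℝ) ≤ ((|(p : ℤ) ^ 2 - (q : ℤ) ^ 2| : ℤ) : ℝ) := by
      exact_mod_cast h5
    have hpos1 : (0 : ℝ) ≤ (p : ℝ) ^ 2 := by positivity
    have hpos2 : (0 : ℝ) ≤ (q : ℝ) ^ 2 := by positivity
    have h7 : ((|(p : ℤ) ^ 2 - (q : ℤ) ^ 2| : ℤ) : ℝ) ≤ X ^ (0.0002 : ℝ) := by
      have h8 : X ^ (0.0002 : ℝ) = (X ^ (0.0001 : ℝ)) ^ 2 := by
        rw [← Real.rpow_natCast, ← Real.rpow_mul hX0.le]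
        norm_num
      have h9 : (p : ℝ) ^ 2 ≤ (X ^ (0.0001 : ℝ)) ^ 2 := pow_le_pow_left₀ (by positivity) hpX 2
      have h10 : (q : ℝ) ^ 2 ≤ (X ^ (0.0001 : ℝ)) ^ 2 := pow_le_pow_left₀ (by positivity) hqX 2
      push_cast
      rw [h8, abs_le]
      constructor <;> linarith
    have h8 : ((2 ^ (Nn Q p q).card : ℕ) : ℝ) ≤ ((∏ l ∈ Nn Q p q, l : ℕ) : ℝ) := by
      exact_mod_cast h2
    have h9 : ((∏ l ∈ Nn Q p q, l : ℕ) : ℝ) = (((∏ l ∈ Nn Q p q, l : ℕ) : ℤ) : ℝ) := by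
      rw [Int.cast_natCast]
    rw [h9] at h8
    exact h8.trans (h6.trans h7)
  rw [hEr]
  have hfin : ‖∑ G ∈ (Nn Q p q).powerset,
      ∑ D ∈ (Q.erase p).powerset, ∑ E ∈ (Q.erase q).powerset,
        if D ∩ E = G then
          ((ξ D * ζ E : ℝ) : ℂ) * Fr (2 * X) (primorial w * ∏ l ∈ D ∪ E, l) (c D E) else 0‖ ≤
      ((Nn Q p q).powerset.card : ℝ) * ((X ^ (0.0001 : ℝ)) ^ 2 * X ^ (0.9993 : ℝ)) := by
    refine (norm_sum_le _ _).trans ((sum_le_sum hpart).trans (le_of_eq ?_))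
    rw [sum_const, nsmul_eq_mul]
  refine hfin.trans ?_
  have hlast : X ^ (0.0002 : ℝ) * ((X ^ (0.0001 : ℝ)) ^ 2 * X ^ (0.9993 : ℝ)) = X ^ (0.9997 : ℝ) := by
    rw [← Real.rpow_natCast, ← Real.rpow_mul hX0.le, ← Real.rpow_add hX0, ← Real.rpow_add hX0]
    norm_num
  rw [← hlast]
  exact mul_le_mul_of_nonneg_right hcard (by positivity)

end Pool.Agent.PT
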